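import Mathlib

/-! Weighted partition sums: the two recurrences. -/

set_option autoImplicit false

open Finset

namespace Pool.Agent.Q45.SN

/-- weight of a multiset of parts -/
noncomputable def wt (a : ℕ → ℝ) (s : Multiset ℕ) : ℝ := (s.map a).prod

open Classical in
/-- partitions of `n` into parts at most `y` -/
noncomputable def P (y n : ℕ) : Finset n.Partition := univ.filter (fun l => ∀ i ∈ l.parts, i ≤ y)

/-- weighted sum over the partitions of `n` into parts at most `y` -/
noncomputable def W (a : ℕ → ℝ) (y n : ℕ) : ℝ := ∑ l ∈ P y n, wt a l.parts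

theorem mem_P {y n : ℕ} {l : n.Partition} : l ∈ P y n ↔ ∀ i ∈ l.parts, i ≤ y := by
  simp [P]

theorem wt_nonneg {a : ℕ → ℝ} (ha : ∀ k, 0 ≤ a k) (s : Multiset ℕ) : 0 ≤ wt a s := by
  unfold wt
  apply Multiset.prod_nonneg
  intro x hx
  rw [Multiset.mem_map] at hx
  obtain ⟨k, _, rfl⟩ := hx
  exact ha k

theorem W_nonneg {a : ℕ → ℝ} (ha : ∀ k, 0 ≤ a k) (y n : ℕ) : 0 ≤ W a y n :=
  sum_nonneg fun l _ => wt_nonneg ha l.parts

/-- removing `j` copies of the part `k` -/
def rem {n : ℕ} (l : n.Partition) (k j : ℕ) (h : j ≤ l.parts.count k) : (n - k * j).Partition where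
  parts := l.parts - Multiset.replicate j k
  parts_pos := by
    intro i hi
    exact l.parts_pos (Multiset.mem_of_le (Multiset.sub_le_self _ _) hi)
  parts_sum := by
    have h1 : Multiset.replicate j k ≤ l.parts := Multiset.le_count_iff_replicate_le.mp h
    have h2 := congrArg Multiset.sum (tsub_add_cancel_of_le h1)
    rw [Multiset.sum_add, Multiset.sum_replicate, l.parts_sum, smul_eq_mul] at h2
    rw [mul_comm k j]
    omega

/-- adding `j` copies of the part `k` -/
def ad {n : ℕ} (k j : ℕ) (hk : 0 < k) (hn : k * j ≤ n) (l : (n - k * j).Partition) : n.Partition where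
  parts := l.parts + Multiset.replicate j k
  parts_pos := by
    intro i hi
    rw [Multiset.mem_add] at hi
    rcases hi with hi | hi
    · exact l.parts_pos hi
    · rw [Multiset.eq_of_mem_replicate hi]; exact hk
  parts_sum := by
    rw [Multiset.sum_add, Multiset.sum_replicate, l.parts_sum, smul_eq_mul, mul_comm j k]
    omega

theorem count_mul_le {n : ℕ} (l : n.Partition) (k j : ℕ) (h : j ≤ l.parts.count k) : k * j ≤ n := by
  have h1 : Multiset.replicate j k ≤ l.parts := Multiset.le_count_iff_replicate_le.mp h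
  have h2 := congrArg Multiset.sum (tsub_add_cancel_of_le h1)
  rw [Multiset.sum_add, Multiset.sum_replicate, l.parts_sum, smul_eq_mul, mul_comm j k] at h2
  omega

open Classical in
theorem sum_count (a : ℕ → ℝ) (y n k j : ℕ) (hk : 0 < k) (hky : k ≤ y) :
    ∑ l ∈ (P y n).filter (fun l => j ≤ l.parts.count k), wt a l.parts =
      if k * j ≤ n then a k ^ j * W a y (n - k * j) else 0 := by
  split_ifs with hn
  · unfold W
    rw [mul_sum]
    refine sum_bij' (fun l hl => rem l k j (mem_filter.mp hl).2) (fun l _ => ad k j hk hn l) ?_ ?_ ?_ ?_ ?_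
    · intro l hl
      rw [mem_P]
      intro i hi
      have h1 := mem_P.mp (mem_filter.mp hl).1
      exact h1 i (Multiset.mem_of_le (Multiset.sub_le_self _ _) hi)
    · intro l hl
      rw [mem_filter, mem_P]
      constructor
      · intro i hi
        simp only [ad, Multiset.mem_add] at hi
        rcases hi with hi | hi
        · exact mem_P.mp hl i hi
        · rw [Multiset.eq_of_mem_replicate hi]; exact hky
      · simp [ad, Multiset.count_replicate_self]
    · intro l hl
      apply Nat.Partition.ext
      simp only [ad, rem]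
      exact tsub_add_cancel_of_le (Multiset.le_count_iff_replicate_le.mp (mem_filter.mp hl).2)
    · intro l hl
      apply Nat.Partition.ext
      simp [ad, rem]
    · intro l hl
      have h1 : Multiset.replicate j k ≤ l.parts :=
        Multiset.le_count_iff_replicate_le.mp (mem_filter.mp hl).2
      have h2 : l.parts = (l.parts - Multiset.replicate j k) + Multiset.replicate j k :=
        (tsub_add_cancel_of_le h1).symm
      unfold wt
      conv_lhs => rw [h2]
      rw [Multiset.map_add, Multiset.prod_add, Multiset.map_replicate, Multiset.prod_replicate, mul_comm]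
      rfl
  · rw [filter_eq_empty_iff.mpr, sum_empty]
    intro l _ h
    exact hn (count_mul_le l k j h)

/-- First recurrence. -/
theorem rec1 (a : ℕ → ℝ) (y n : ℕ) :
    W a (y + 1) n = W a y n + if y + 1 ≤ n then a (y + 1) * W a (y + 1) (n - (y + 1)) else 0 := by
  classical
  have h := sum_count a (y + 1) n (y + 1) 1 (Nat.succ_pos y) le_rfl
  rw [mul_one, pow_one] at h
  rw [← h]
  unfold W
  have hs : P y n = (P (y + 1) n).filter (fun l => ¬ 1 ≤ l.parts.count (y + 1)) := by
    ext l
    rw [mem_filter, mem_P, mem_P]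
    constructor
    · intro h
      refine ⟨fun i hi => (h i hi).trans (Nat.le_succ y), ?_⟩
      rw [Multiset.one_le_count_iff_mem]
      intro hc
      have := h _ hc
      omega
    · rintro ⟨h1, h2⟩ i hi
      rw [Multiset.one_le_count_iff_mem] at h2
      have h3 := h1 i hi
      have h4 : i ≠ y + 1 := by
        rintro rfl
        exact h2 hi
      omega
  rw [hs]
  have h5 := sum_filter_add_sum_filter_not (P (y + 1) n)
    (fun l : n.Partition => 1 ≤ l.parts.count (y + 1)) (fun l => wt a l.parts)
  linarith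

theorem W_zero (a : ℕ → ℝ) (n : ℕ) : W a 0 n = if n = 0 then 1 else 0 := by
  split_ifs with h
  · subst h
    unfold W
    have h1 : ∀ l : Nat.Partition 0, l.parts = 0 := by
      intro l
      rw [Multiset.eq_zero_iff_forall_notMem]
      intro i hi
      have h2 := l.parts_pos hi
      have h3 := l.le_of_mem_parts hi
      omega
    have h2 : P 0 0 = univ := by
      refine eq_univ_iff_forall.mpr fun l => ?_
      rw [mem_P, h1 l]
      simp
    rw [h2, sum_congr rfl (fun l _ => show wt a l.parts = 1 by rw [h1 l]; simp [wt]), sum_const,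
      card_univ, Fintype.card_unique]
    simp
  · unfold W
    rw [sum_eq_zero]
    intro l hl
    exfalso
    rw [mem_P] at hl
    have h1 : l.parts = 0 := by
      rw [Multiset.eq_zero_iff_forall_notMem]
      intro i hi
      have := hl i hi
      have := l.parts_pos hi
      omega
    have h2 := l.parts_sum
    rw [h1] at h2
    exact h h2.symm

theorem W_stable (a : ℕ → ℝ) {y y' n : ℕ} (h : n ≤ y) (h' : y ≤ y') : W a y' n = W a y n := by
  induction y', h' using Nat.le_induction with
  | base => rfl
  | succ z hz ih =>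
    rw [rec1, if_neg (by omega), add_zero, ih]

theorem sum_parts_eq {n : ℕ} (y : ℕ) (l : n.Partition) (hl : l ∈ P y n) :
    (n : ℝ) = ∑ k ∈ Icc 1 y, ∑ j ∈ Icc 1 n, if j ≤ l.parts.count k then (k : ℝ) else 0 := by
  classical
  have h1 : ∀ k ∈ Icc 1 y, (∑ j ∈ Icc 1 n, if j ≤ l.parts.count k then (k : ℝ) else 0) =
      l.parts.count k * (k : ℝ) := by
    intro k hk
    rw [mem_Icc] at hk
    rw [← sum_filter, sum_const, nsmul_eq_mul]
    congr 2
    have : (Icc 1 n).filter (fun j => j ≤ l.parts.count k) = Icc 1 (l.parts.count k) := by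
      ext j
      rw [mem_filter, mem_Icc, mem_Icc]
      constructor
      · rintro ⟨⟨h1, _⟩, h3⟩; exact ⟨h1, h3⟩
      · rintro ⟨h1, h3⟩
        have := count_mul_le l k j h3
        refine ⟨⟨h1, ?_⟩, h3⟩
        nlinarith
    rw [this, Nat.card_Icc]
    simp
  rw [sum_congr rfl h1]
  have h2 : l.parts.sum = ∑ k ∈ Icc 1 y, l.parts.count k * k := by
    rw [Finset.sum_multiset_count]
    refine sum_subset_zero_on_sdiff ?_ ?_ ?_
    · intro k hk
      rw [Multiset.mem_toFinset] at hk
      rw [mem_Icc]
      exact ⟨l.parts_pos hk, mem_P.mp hl k hk⟩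
    · intro k hk
      rw [mem_sdiff, Multiset.mem_toFinset] at hk
      rw [Multiset.count_eq_zero_of_notMem hk.2, zero_mul]
    · intro k _
      simp
  rw [l.parts_sum] at h2
  exact_mod_cast h2

/-- Second recurrence. -/
theorem rec2 (a : ℕ → ℝ) (y n : ℕ) :
    (n : ℝ) * W a y n = ∑ k ∈ Icc 1 y, ∑ j ∈ Icc 1 n,
      if k * j ≤ n then (k : ℝ) * a k ^ j * W a y (n - k * j) else 0 := by
  classical
  have h1 : (n : ℝ) * W a y n = ∑ l ∈ P y n, (∑ k ∈ Icc 1 y, ∑ j ∈ Icc 1 n,
      if j ≤ l.parts.count k then (k : ℝ) else 0) * wt a l.parts := by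
    unfold W
    rw [mul_sum]
    refine sum_congr rfl fun l hl => ?_
    rw [← sum_parts_eq y l hl]
  rw [h1]
  simp_rw [sum_mul]
  rw [sum_comm]
  refine sum_congr rfl fun k hk => ?_
  rw [sum_comm]
  refine sum_congr rfl fun j _ => ?_
  rw [mem_Icc] at hk
  have h2 := sum_count a y n k j hk.1 hk.2
  have h3 : ∑ l ∈ P y n, (if j ≤ l.parts.count k then (k : ℝ) else 0) * wt a l.parts =
      k * ∑ l ∈ (P y n).filter (fun l => j ≤ l.parts.count k), wt a l.parts := by
    rw [mul_sum, sum_filter]
    refine sum_congr rfl fun l _ => ?_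
    split_ifs <;> simp
  rw [h3, h2]
  split_ifs
  · ring
  · simp

end Pool.Agent.Q45.SN
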