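import Pool.Agent.Q45.SN.Comb

/-! Cumulative sums of the weighted partition numbers. -/

set_option autoImplicit false

open Finset Filter Topology

namespace Pool.Agent.Q45.SN

/-- the product of the Euler factors -/
noncomputable def G (a : ℕ → ℝ) (y : ℕ) : ℝ := ∏ k ∈ Icc 1 y, (1 - a k)⁻¹

/-- cumulative sums -/
noncomputable def T (a : ℕ → ℝ) (y N : ℕ) : ℝ := ∑ j ∈ range N, W a y j

theorem shift_sum (f : ℕ → ℝ) (d N : ℕ) :
    ∑ j ∈ range N, (if d ≤ j then f (j - d) else 0) = ∑ i ∈ range (N - d), f i := by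
  induction N with
  | zero => simp
  | succ N ih =>
    rw [sum_range_succ, ih]
    split_ifs with h
    · rw [Nat.succ_sub h, sum_range_succ]
    · rw [Nat.sub_eq_zero_of_le (by omega), Nat.sub_eq_zero_of_le (by omega)]
      simp

theorem T_rec (a : ℕ → ℝ) (y N : ℕ) :
    T a (y + 1) N = T a y N + a (y + 1) * T a (y + 1) (N - (y + 1)) := by
  unfold T
  rw [← shift_sum, mul_sum, ← sum_add_distrib]
  refine sum_congr rfl fun j _ => ?_
  rw [rec1]
  congr 1
  split_ifs <;> simp

section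
variable {a : ℕ → ℝ} (ha : ∀ k, 0 ≤ a k) (ha2 : ∀ k, a k ≤ 1 / 2)
include ha

theorem T_nonneg (y N : ℕ) : 0 ≤ T a y N := sum_nonneg fun _ _ => W_nonneg ha _ _

theorem T_mono (y : ℕ) : Monotone (T a y) := by
  intro M N h
  unfold T
  exact sum_le_sum_of_subset_of_nonneg (range_mono h) fun _ _ _ => W_nonneg ha _ _

include ha2

theorem G_pos (y : ℕ) : 0 < G a y := by
  unfold G
  refine prod_pos fun k _ => inv_pos.mpr ?_
  have := ha2 k
  linarith

theorem G_succ (y : ℕ) : G a (y + 1) = G a y * (1 - a (y + 1))⁻¹ := by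
  unfold G
  rw [prod_Icc_succ_top (by omega)]

theorem T_le (y N : ℕ) : T a y N ≤ G a y := by
  induction y generalizing N with
  | zero =>
    unfold T G
    simp only [W_zero]
    rw [sum_ite_eq']
    split_ifs <;> simp
  | succ y ih =>
    have h1 := T_rec a y N
    have h2 : T a (y + 1) (N - (y + 1)) ≤ T a (y + 1) N := T_mono ha (y + 1) (Nat.sub_le _ _)
    have h3 := ih N
    have h4 := ha2 (y + 1)
    have h5 : (0 : ℝ) < 1 - a (y + 1) := by linarith
    rw [G_succ ha ha2, ← div_eq_mul_inv, le_div_iff₀ h5]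
    have h6 := mul_le_mul_of_nonneg_left h2 (ha (y + 1))
    nlinarith

theorem T_tendsto (y : ℕ) : Tendsto (T a y) atTop (𝓝 (G a y)) := by
  induction y with
  | zero =>
    refine tendsto_const_nhds.congr' ?_
    filter_upwards [eventually_ge_atTop 1] with N hN
    unfold T G
    simp only [W_zero]
    rw [sum_ite_eq', if_pos (mem_range.mpr (by omega))]
    simp
  | succ y ih =>
    obtain ⟨l, hl⟩ : ∃ l, Tendsto (T a (y + 1)) atTop (𝓝 l) :=
      ⟨_, tendsto_atTop_ciSup (T_mono ha (y + 1))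
        ⟨G a (y + 1), by rintro _ ⟨N, rfl⟩; exact T_le ha ha2 (y + 1) N⟩⟩
    have h1 : Tendsto (fun N => T a (y + 1) (N - (y + 1))) atTop (𝓝 l) :=
      hl.comp (tendsto_sub_atTop_nat (y + 1))
    have h2 : Tendsto (T a (y + 1)) atTop (𝓝 (G a y + a (y + 1) * l)) := by
      have := ih.add (h1.const_mul (a (y + 1)))
      exact this.congr fun N => (T_rec a y N).symm
    have h3 := tendsto_nhds_unique hl h2
    have h4 := ha2 (y + 1)
    have h5 : (1 : ℝ) - a (y + 1) ≠ 0 := by
      have : (0 : ℝ) < 1 - a (y + 1) := by linarith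
      exact this.ne'
    have h6 : l = G a (y + 1) := by
      rw [G_succ ha ha2]
      field_simp
      linarith
    rw [← h6]
    exact hl

theorem geom_le (k N : ℕ) : ∑ i ∈ Icc 1 N, a k ^ i ≤ 2 * a k := by
  have h1 : ∑ i ∈ Icc 1 N, a k ^ i = a k * ∑ i ∈ range N, a k ^ i := by
    rw [mul_sum, range_eq_Ico, sum_Ico_eq_sum_range]
    rw [show Icc 1 N = Ico 1 (N + 1) from rfl, sum_Ico_eq_sum_range]
    refine sum_congr (by simp) fun i _ => ?_
    rw [← pow_succ']
    congr 1
    omega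
  have h2 := geom_sum_mul (a k) N
  have h3 : 0 ≤ a k ^ N := pow_nonneg (ha k) N
  have h4 := ha2 k
  have h5 : ∑ i ∈ range N, a k ^ i ≤ 2 := by
    by_contra hc
    push Not at hc
    nlinarith
  rw [h1]
  have := ha k
  nlinarith

theorem first_moment (hk : ∀ k : ℕ, (k : ℝ) * a k ≤ 1) (y N : ℕ) :
    ∑ j ∈ range N, (j : ℝ) * W a y j ≤ 2 * y * G a y := by
  have h1 : ∀ j ∈ range N, (j : ℝ) * W a y j = ∑ k ∈ Icc 1 y, ∑ i ∈ Icc 1 N,
      (if k * i ≤ j then (k : ℝ) * a k ^ i * W a y (j - k * i) else 0) := by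
    intro j hj
    rw [mem_range] at hj
    rw [rec2]
    refine sum_congr rfl fun k hk => ?_
    rw [mem_Icc] at hk
    refine sum_subset (Icc_subset_Icc_right hj.le) ?_
    intro i hi hi'
    rw [mem_Icc] at hi hi'
    rw [if_neg]
    intro h
    have : i ≤ k * i := Nat.le_mul_of_pos_left i (by omega)
    omega
  rw [sum_congr rfl h1, sum_comm]
  have h2 : ∀ k ∈ Icc 1 y, ∑ j ∈ range N, ∑ i ∈ Icc 1 N,
      (if k * i ≤ j then (k : ℝ) * a k ^ i * W a y (j - k * i) else 0) ≤ 2 * G a y := by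
    intro k _
    rw [sum_comm]
    have h3 : ∀ i ∈ Icc 1 N, ∑ j ∈ range N,
        (if k * i ≤ j then (k : ℝ) * a k ^ i * W a y (j - k * i) else 0) ≤
        k * a k ^ i * G a y := by
      intro i _
      rw [shift_sum (fun t => (k : ℝ) * a k ^ i * W a y t), ← mul_sum]
      refine mul_le_mul_of_nonneg_left (T_le ha ha2 y _) ?_
      have := pow_nonneg (ha k) i
      positivity
    refine (sum_le_sum h3).trans ?_
    rw [← sum_mul, ← mul_sum]
    refine mul_le_mul_of_nonneg_right ?_ (G_pos ha ha2 y).le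
    have h4 := geom_le ha ha2 k N
    have h5 := hk k
    have h6 : (k : ℝ) * ∑ i ∈ Icc 1 N, a k ^ i ≤ k * (2 * a k) :=
      mul_le_mul_of_nonneg_left h4 (Nat.cast_nonneg k)
    linarith
  refine (sum_le_sum h2).trans ?_
  rw [sum_const, Nat.card_Icc, nsmul_eq_mul]
  simp
  linarith

theorem T_lower (hk : ∀ k : ℕ, (k : ℝ) * a k ≤ 1) (y n : ℕ) (hn : 0 < n) :
    G a y * (1 - 2 * y / n) ≤ T a y n := by
  have hn' : (0 : ℝ) < n := by exact_mod_cast hn
  have h1 : ∀ᶠ N in atTop, T a y N ≤ T a y n + 2 * y * G a y / n := by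
    filter_upwards [eventually_ge_atTop n] with N hN
    have h2 := first_moment ha ha2 hk y N
    have h3 : T a y N = T a y n + ∑ j ∈ Ico n N, W a y j := by
      unfold T
      rw [range_eq_Ico, range_eq_Ico, sum_Ico_consecutive _ (Nat.zero_le n) hN]
    have h4 : n * ∑ j ∈ Ico n N, W a y j ≤ ∑ j ∈ range N, (j : ℝ) * W a y j := by
      rw [mul_sum]
      refine (sum_le_sum fun j hj => ?_).trans (sum_le_sum_of_subset_of_nonneg (f := fun j : ℕ => (j : ℝ) * W a y j)
        (s := Ico n N) ?_ ?_)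
      · rw [mem_Ico] at hj
        exact mul_le_mul_of_nonneg_right (by exact_mod_cast hj.1) (W_nonneg ha y j)
      · intro j hj
        rw [mem_Ico] at hj
        exact mem_range.mpr hj.2
      · intro j _ _
        exact mul_nonneg (Nat.cast_nonneg j) (W_nonneg ha y j)
    rw [h3]
    have h5 : ∑ j ∈ Ico n N, W a y j ≤ 2 * y * G a y / n := by
      rw [le_div_iff₀ hn', mul_comm]
      linarith
    linarith
  have h6 := le_of_tendsto (T_tendsto ha ha2 y) h1
  have h7 : G a y * (1 - 2 * y / n) = G a y - 2 * y * G a y / n := by ring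
  rw [h7]
  linarith

omit ha2 in
theorem W_mono (n : ℕ) : Monotone (fun y => W a y n) := by
  refine monotone_nat_of_le_succ fun y => ?_
  show W a y n ≤ W a (y + 1) n
  rw [rec1]
  split_ifs
  · have := mul_nonneg (ha (y + 1)) (W_nonneg ha (y + 1) (n - (y + 1)))
    linarith
  · simp

omit ha2 in
theorem W_le_full (y n : ℕ) : W a y n ≤ W a n n := by
  rcases le_total y n with h | h
  · exact W_mono ha n h
  · exact (W_stable a le_rfl h).le

end

/-- the full cumulative sum -/
noncomputable def C (a : ℕ → ℝ) (N : ℕ) : ℝ := ∑ j ∈ range N, W a j j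

theorem C_eq (a : ℕ → ℝ) (N : ℕ) : C a N = T a N N := by
  unfold C T
  refine sum_congr rfl fun j hj => ?_
  rw [mem_range] at hj
  exact (W_stable a le_rfl hj.le).symm

theorem T_le_C {a : ℕ → ℝ} (ha : ∀ k, 0 ≤ a k) (y N : ℕ) : T a y N ≤ C a N :=
  sum_le_sum fun j _ => W_le_full ha y j

end Pool.Agent.Q45.SN
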