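import Mathlib

/-! Differencing an asymptotic formula by means of a convolution identity. -/

set_option autoImplicit false

open Finset Filter Topology

namespace Pool.Agent.Q45.SN

theorem log_nat_tendsto : Tendsto (fun n : ℕ => Real.log n) atTop atTop :=
  Real.tendsto_log_atTop.comp tendsto_natCast_atTop_atTop

theorem half_tendsto {C : ℕ → ℝ} {κ : ℝ} (hC : Tendsto (fun n : ℕ => C n / Real.log n) atTop (𝓝 κ)) :
    Tendsto (fun n : ℕ => C (n / 2) / Real.log n) atTop (𝓝 κ) := by
  have h1 : Tendsto (fun n : ℕ => n / 2) atTop atTop := by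
    refine tendsto_atTop.mpr fun b => ?_
    filter_upwards [eventually_ge_atTop (2 * b)] with n hn
    omega
  have h2 := hC.comp h1
  have h3 : Tendsto (fun n : ℕ => Real.log ((n / 2 : ℕ) : ℝ) / Real.log n) atTop (𝓝 1) := by
    have h4 : Tendsto (fun n : ℕ => Real.log 3 / Real.log n) atTop (𝓝 0) :=
      tendsto_const_nhds.div_atTop log_nat_tendsto
    have h5 : Tendsto (fun n : ℕ => 1 - Real.log 3 / Real.log n) atTop (𝓝 1) := by
      have := h4.const_sub 1
      rwa [sub_zero] at this
    refine tendsto_of_tendsto_of_tendsto_of_le_of_le' h5 tendsto_const_nhds ?_ ?_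
    · filter_upwards [eventually_ge_atTop 6] with n hn
      have hn' : (6 : ℝ) ≤ n := by exact_mod_cast hn
      have hl : 0 < Real.log n := Real.log_pos (by linarith)
      rw [le_div_iff₀ hl, sub_mul, one_mul, div_mul_cancel₀ _ hl.ne']
      rw [← Real.log_div (by linarith) (by norm_num)]
      refine Real.log_le_log (by positivity) ?_
      have h6 : n ≤ 3 * (n / 2) := by omega
      have h7 : (n : ℝ) ≤ 3 * ((n / 2 : ℕ) : ℝ) := by exact_mod_cast h6
      linarith
    · filter_upwards [eventually_ge_atTop 6] with n hn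
      have hn' : (6 : ℝ) ≤ n := by exact_mod_cast hn
      have hl : 0 < Real.log n := Real.log_pos (by linarith)
      rw [div_le_one hl]
      have h6 : 3 ≤ n / 2 := by omega
      have h8 : (3 : ℝ) ≤ ((n / 2 : ℕ) : ℝ) := by exact_mod_cast h6
      refine Real.log_le_log (by linarith) ?_
      exact_mod_cast Nat.div_le_self n 2
  have h4 := h2.mul h3
  rw [mul_one] at h4
  refine h4.congr' ?_
  filter_upwards [eventually_ge_atTop 6] with n hn
  have h6 : 3 ≤ n / 2 := by omega
  have h8 : (3 : ℝ) ≤ ((n / 2 : ℕ) : ℝ) := by exact_mod_cast h6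
  have h9 : 0 < Real.log ((n / 2 : ℕ) : ℝ) := Real.log_pos (by linarith)
  simp only [Function.comp_apply]
  rw [div_mul_div_comm, mul_comm (C (n / 2)), mul_div_mul_left _ _ h9.ne']

/-- the cut -/
noncomputable def M (n : ℕ) : ℕ := ⌊(n : ℝ) / (Real.log n) ^ 2⌋₊

theorem loglog_small (η : ℝ) (hη : 0 < η) :
    ∀ᶠ n : ℕ in atTop, Real.log (Real.log n) ≤ η * Real.log n := by
  have h5 : Tendsto (fun x : ℝ => Real.log x / x) atTop (nhds 0) :=
    Real.isLittleO_log_id_atTop.tendsto_div_nhds_zero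
  have h6 := h5.comp log_nat_tendsto
  filter_upwards [h6.eventually (gt_mem_nhds hη), log_nat_tendsto.eventually_ge_atTop 1] with n h7 h8
  simp only [Function.comp_apply] at h7
  rw [div_lt_iff₀ (by linarith)] at h7
  exact h7.le

theorem unif {b : ℕ → ℝ} (hb : Tendsto (fun m : ℕ => b m * Real.log m) atTop (𝓝 1)) (ε : ℝ)
    (hε : 0 < ε) : ∀ᶠ n : ℕ in atTop, ∀ m : ℕ, M n < m → m ≤ n →
      |b m * Real.log n - 1| ≤ ε := by
  -- choose small parameters
  obtain ⟨δ, hδ0, hδ1, hδε⟩ : ∃ δ : ℝ, 0 < δ ∧ δ ≤ 1 / 4 ∧ 4 * δ ≤ ε :=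
    ⟨min (1 / 4) (ε / 4), lt_min (by norm_num) (by linarith), min_le_left _ _, by
      have := min_le_right (1 / 4) (ε / 4); linarith⟩
  have h1 : ∀ᶠ m : ℕ in atTop, |b m * Real.log m - 1| < δ := by
    have := hb.eventually (Metric.ball_mem_nhds (1 : ℝ) hδ0)
    filter_upwards [this] with m hm
    rw [Real.dist_eq] at hm
    exact hm
  obtain ⟨m₀, hm₀⟩ := eventually_atTop.mp h1
  filter_upwards [loglog_small (δ / 4) (by linarith), log_nat_tendsto.eventually_ge_atTop 1,
    log_nat_tendsto.eventually_ge_atTop (2 * Real.log (m₀ + 1)), eventually_ge_atTop 3] with n h2 h3 h4 h5 m hm1 hm2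
  have hn : (0 : ℝ) < n := by exact_mod_cast (by omega : 0 < n)
  have hL : 0 < Real.log n := by linarith
  have hm : (n : ℝ) / (Real.log n) ^ 2 < m := by
    have := Nat.lt_floor_add_one ((n : ℝ) / (Real.log n) ^ 2)
    have h6 : ((M n + 1 : ℕ) : ℝ) ≤ m := by exact_mod_cast hm1
    push_cast at h6
    exact this.trans_le h6
  have hm0 : (0 : ℝ) < m := lt_trans (by positivity) hm
  have h6 : Real.log n - 2 * Real.log (Real.log n) ≤ Real.log m := by
    have h7 := Real.log_le_log (by positivity) hm.le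
    rw [Real.log_div hn.ne' (by positivity), Real.log_pow] at h7
    push_cast at h7
    exact h7
  have h7 : (1 - δ / 2) * Real.log n ≤ Real.log m := by nlinarith
  have h8 : Real.log m ≤ Real.log n := Real.log_le_log hm0 (by exact_mod_cast hm2)
  have h9 : m₀ ≤ m := by
    by_contra hc
    push Not at hc
    have h10 : (m : ℝ) ≤ m₀ + 1 := by
      have : (m : ℝ) < m₀ := by exact_mod_cast hc
      linarith
    have h11 := Real.log_le_log hm0 h10
    nlinarith
  have h10 := abs_lt.mp (hm₀ m h9)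
  have hlm : 0 < Real.log m := lt_of_lt_of_le (by nlinarith) h7
  have hbm : 0 < b m := by
    by_contra hc
    push Not at hc
    nlinarith [h10.1]
  rw [abs_le]
  constructor
  · have : b m * Real.log m ≤ b m * Real.log n := mul_le_mul_of_nonneg_left h8 hbm.le
    linarith [h10.1]
  · have h12 : (1 - δ / 2) * (b m * Real.log n) ≤ b m * Real.log m := by
      have := mul_le_mul_of_nonneg_left h7 hbm.le
      linarith
    by_contra hc
    push Not at hc
    nlinarith [h10.2]

theorem diff {w b : ℕ → ℝ} {B κ : ℝ} (hw : ∀ n, 0 ≤ w n) (hb0 : ∀ m, 0 ≤ b m) (hB : ∀ m, b m ≤ B)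
    (hb : Tendsto (fun m : ℕ => b m * Real.log m) atTop (𝓝 1))
    (hrec : ∀ n : ℕ, (n : ℝ) * w n = ∑ j ∈ range n, b (n - j) * w j)
    (hC : Tendsto (fun n : ℕ => (∑ j ∈ range n, w j) / Real.log n) atTop (𝓝 κ)) :
    Tendsto (fun n : ℕ => (n : ℝ) * w n) atTop (𝓝 κ) := by
  set C : ℕ → ℝ := fun n => ∑ j ∈ range n, w j with hCdef
  have hCmono : Monotone C := by
    intro p q h
    exact sum_le_sum_of_subset_of_nonneg (range_mono h) fun _ _ _ => hw _
  have hB0 : 0 ≤ B := (hb0 0).trans (hB 0)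
  have hC0 : ∀ n, 0 ≤ C n := fun n => sum_nonneg fun _ _ => hw _
  -- the cut is at most half
  have hM : ∀ᶠ n : ℕ in atTop, n / 2 ≤ n - M n := by
    filter_upwards [log_nat_tendsto.eventually_ge_atTop 2] with n hn
    have h1 : (M n : ℝ) ≤ n / 2 := by
      refine (Nat.floor_le (by positivity)).trans ?_
      rw [div_le_div_iff₀ (by positivity) (by norm_num)]
      have : (0 : ℝ) ≤ n := Nat.cast_nonneg n
      exact mul_le_mul_of_nonneg_left (by nlinarith : (2:ℝ) ≤ (Real.log n)^2) this
    have h2 : 2 * M n ≤ n := by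
      have : (2 : ℝ) * M n ≤ n := by linarith
      exact_mod_cast this
    omega
  have hE : Tendsto (fun n : ℕ => C (n - M n) / Real.log n) atTop (𝓝 κ) := by
    refine tendsto_of_tendsto_of_tendsto_of_le_of_le' (half_tendsto hC) hC ?_ ?_
    · filter_upwards [hM, log_nat_tendsto.eventually_ge_atTop 1] with n h1 h2
      exact div_le_div_of_nonneg_right (hCmono h1) (by linarith)
    · filter_upwards [log_nat_tendsto.eventually_ge_atTop 1] with n h2
      exact div_le_div_of_nonneg_right (hCmono (Nat.sub_le _ _)) (by linarith)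
  -- a priori bound
  have hap : ∀ n : ℕ, ∀ j, j < n → 0 < n → n / 2 ≤ j → 1 ≤ j → w j ≤ 3 * B * C n / n := by
    intro n j hjn hn hj hj1
    have h1 : (j : ℝ) * w j ≤ B * C n := by
      rw [hrec]
      have h2 : ∑ i ∈ range j, b (j - i) * w i ≤ B * C j := by
        rw [hCdef]
        simp only
        rw [mul_sum]
        exact sum_le_sum fun i _ => mul_le_mul_of_nonneg_right (hB _) (hw i)
      exact h2.trans (mul_le_mul_of_nonneg_left (hCmono hjn.le) hB0)
    have hn' : (0 : ℝ) < n := by exact_mod_cast hn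
    rw [le_div_iff₀ hn']
    have h3 : n ≤ 3 * j := by omega
    have h4 : (n : ℝ) ≤ 3 * j := by exact_mod_cast h3
    have h5 := mul_le_mul_of_nonneg_left h4 (hw j)
    nlinarith
  -- second part
  have hP2 : ∀ᶠ n : ℕ in atTop, ∑ j ∈ Ico (n - M n) n, b (n - j) * w j ≤
      3 * B ^ 2 * (C n / Real.log n) * (1 / Real.log n) := by
    filter_upwards [hM, log_nat_tendsto.eventually_ge_atTop 2, eventually_ge_atTop 2] with n h1 h2 h3
    have hn' : (0 : ℝ) < n := by exact_mod_cast (by omega : 0 < n)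
    have hL : 0 < Real.log n := by linarith
    have h4 : ∑ j ∈ Ico (n - M n) n, b (n - j) * w j ≤ ∑ j ∈ Ico (n - M n) n, B * (3 * B * C n / n) := by
      refine sum_le_sum fun j hj => ?_
      rw [mem_Ico] at hj
      refine mul_le_mul (hB _) (hap n j hj.2 (by omega) (h1.trans hj.1) (by omega)) (hw j) hB0
    refine h4.trans ?_
    rw [sum_const, Nat.card_Ico, nsmul_eq_mul]
    have h5 : ((n - (n - M n) : ℕ) : ℝ) ≤ (n : ℝ) / (Real.log n) ^ 2 := by
      have h6 : n - (n - M n) ≤ M n := by omega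
      have h7 : ((n - (n - M n) : ℕ) : ℝ) ≤ M n := by exact_mod_cast h6
      exact h7.trans (Nat.floor_le (by positivity))
    have h8 : 0 ≤ B * (3 * B * C n / n) := by
      have := hC0 n
      positivity
    refine (mul_le_mul_of_nonneg_right h5 h8).trans (le_of_eq ?_)
    field_simp
  have hP2t : Tendsto (fun n : ℕ => 3 * B ^ 2 * (C n / Real.log n) * (1 / Real.log n)) atTop (𝓝 0) := by
    have h1 : Tendsto (fun n : ℕ => 1 / Real.log n) atTop (𝓝 0) :=
      tendsto_const_nhds.div_atTop log_nat_tendsto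
    have := (hC.const_mul (3 * B ^ 2)).mul h1
    rw [mul_zero] at this
    exact this
  -- conclusion
  rw [Metric.tendsto_atTop]
  intro ε hε
  rw [← eventually_atTop (α := ℕ)]
  have hκ : 0 ≤ κ := ge_of_tendsto' hC fun n => div_nonneg (hC0 n) (Real.log_natCast_nonneg n)
  obtain ⟨η, hη0, hη⟩ : ∃ η : ℝ, 0 < η ∧ η * (κ + 1) ≤ ε / 4 :=
    ⟨ε / (4 * (κ + 1)), by positivity, by
      rw [div_mul_eq_mul_div, div_le_div_iff₀ (by positivity) (by norm_num)]
      linarith⟩
  have e1 := hE.eventually (Metric.ball_mem_nhds κ (show (0 : ℝ) < min 1 (ε / 4) from lt_min one_pos (by linarith)))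
  have e2 := hP2t.eventually (gt_mem_nhds (show (0 : ℝ) < ε / 4 by linarith))
  filter_upwards [e1, e2, hP2, unif hb η hη0, log_nat_tendsto.eventually_ge_atTop 1] with n h1 h2 h3 h4 h5
  rw [Real.dist_eq] at h1
  have hL : 0 < Real.log n := by linarith
  have h6 : (n : ℝ) * w n = ∑ j ∈ range (n - M n), b (n - j) * w j +
      ∑ j ∈ Ico (n - M n) n, b (n - j) * w j := by
    rw [hrec, range_eq_Ico, range_eq_Ico, sum_Ico_consecutive _ (Nat.zero_le _) (Nat.sub_le _ _)]
  have h7 : |∑ j ∈ range (n - M n), b (n - j) * w j - C (n - M n) / Real.log n| ≤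
      η * (C (n - M n) / Real.log n) := by
    have h8 : ∑ j ∈ range (n - M n), b (n - j) * w j - C (n - M n) / Real.log n =
        ∑ j ∈ range (n - M n), (b (n - j) * Real.log n - 1) * (w j / Real.log n) := by
      rw [hCdef]
      simp only
      rw [sum_div, ← sum_sub_distrib]
      refine sum_congr rfl fun j _ => ?_
      field_simp
    rw [h8]
    refine (abs_sum_le_sum_abs _ _).trans ?_
    rw [hCdef]
    simp only
    rw [sum_div, mul_sum]
    refine sum_le_sum fun j hj => ?_
    rw [mem_range] at hj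
    have h9 : 0 ≤ w j / Real.log n := div_nonneg (hw j) hL.le
    rw [abs_mul, abs_of_nonneg h9]
    exact mul_le_mul_of_nonneg_right (h4 (n - j) (by omega) (Nat.sub_le _ _)) h9
  have h8 : 0 ≤ ∑ j ∈ Ico (n - M n) n, b (n - j) * w j :=
    sum_nonneg fun j _ => mul_nonneg (hb0 _) (hw j)
  rw [Real.dist_eq, h6]
  have h9 := abs_lt.mp h1
  have h10 := abs_le.mp h7
  have h11 : C (n - M n) / Real.log n ≤ κ + 1 := by
    have := min_le_left (1 : ℝ) (ε / 4)
    linarith [h9.2]
  have h12 : η * (C (n - M n) / Real.log n) ≤ ε / 4 :=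
    (mul_le_mul_of_nonneg_left h11 hη0.le).trans hη
  have h13 := min_le_right (1 : ℝ) (ε / 4)
  rw [abs_lt]
  constructor <;> linarith [h9.1, h9.2, h10.1, h10.2]

end Pool.Agent.Q45.SN
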