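import Pool.Agent.Q45.SN.Prim

/-! Reciprocal supernorms over the partitions of a fixed size. -/

set_option autoImplicit false

open Finset Filter Topology

namespace Pool.Agent.Q45.SN

/-- coefficient of the differentiated logarithm -/
noncomputable def b (m : ℕ) : ℝ :=
  ∑ j ∈ Icc 1 m, if j ∣ m then ((m / j : ℕ) : ℝ) * ap (m / j) ^ j else 0

theorem b_nonneg (m : ℕ) : 0 ≤ b m := by
  refine sum_nonneg fun j _ => ?_
  split_ifs
  · have := pow_nonneg (ap_nonneg (m / j)) j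
    positivity
  · exact le_rfl

theorem pow_two_ge (j : ℕ) (hj : 3 ≤ j) : (j : ℝ) ^ 2 ≤ 9 * 2 ^ (j - 3) := by
  induction j, hj using Nat.le_induction with
  | base => norm_num
  | succ j hj ih =>
    have e : (2 : ℝ) ^ (j + 1 - 3) = 2 * 2 ^ (j - 3) := by
      rw [show j + 1 - 3 = (j - 3) + 1 by omega, pow_succ, mul_comm]
    rw [e]
    have : (3 : ℝ) ≤ j := by exact_mod_cast hj
    push_cast
    nlinarith

theorem term_le (k j : ℕ) (hk : 1 ≤ k) (hj : 3 ≤ j) :
    (k : ℝ) * ap k ^ j ≤ 9 / ((k * j : ℕ) : ℝ) ^ 2 := by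
  have hk' : (1 : ℝ) ≤ k := by exact_mod_cast hk
  have hj' : (3 : ℝ) ≤ j := by exact_mod_cast hj
  have h1 : (k : ℝ) * ap k ^ j ≤ ap k ^ (j - 1) := by
    have h2 : ap k ^ j = ap k * ap k ^ (j - 1) := by
      rw [← pow_succ']
      congr 1
      omega
    rw [h2, ← mul_assoc]
    exact mul_le_of_le_one_left (pow_nonneg (ap_nonneg k) _) (k_ap k)
  refine h1.trans ?_
  have h3 : ap k ^ (j - 1) = ap k ^ 2 * ap k ^ (j - 3) := by
    rw [← pow_add]
    congr 1
    omega
  rw [h3]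
  have h4 : ap k ^ 2 ≤ ((k : ℝ)⁻¹) ^ 2 := by
    refine pow_le_pow_left₀ (ap_nonneg k) ((ap_succ k).trans ?_) 2
    gcongr
    linarith
  have h5 : ap k ^ (j - 3) ≤ (1 / 2) ^ (j - 3) := pow_le_pow_left₀ (ap_nonneg k) (ap_half k) _
  have h6 : ap k ^ 2 * ap k ^ (j - 3) ≤ ((k : ℝ)⁻¹) ^ 2 * (1 / 2) ^ (j - 3) :=
    mul_le_mul h4 h5 (pow_nonneg (ap_nonneg k) _) (by positivity)
  refine h6.trans ?_
  have h7 := pow_two_ge j hj
  push_cast
  rw [le_div_iff₀ (by positivity)]
  have h8 : ((k : ℝ)⁻¹) ^ 2 * (1 / 2) ^ (j - 3) * ((k : ℝ) * j) ^ 2 = (1 / 2) ^ (j - 3) * (j : ℝ) ^ 2 := by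
    field_simp
  rw [h8]
  have h9 : ((1 : ℝ) / 2) ^ (j - 3) * 2 ^ (j - 3) = 1 := by
    rw [← mul_pow]
    norm_num
  have h10 : (0 : ℝ) < (1 / 2) ^ (j - 3) := by positivity
  nlinarith

theorem b_split (m : ℕ) (hm : 1 ≤ m) : 
    (m : ℝ) * ap m ≤ b m ∧ b m ≤ m * ap m + 11 / m := by
  have hm' : (1 : ℝ) ≤ m := by exact_mod_cast hm
  have h1 : b m = m * ap m + ∑ j ∈ Icc 2 m, if j ∣ m then ((m / j : ℕ) : ℝ) * ap (m / j) ^ j else 0 := by
    unfold b
    rw [← Finset.insert_Icc_succ_left_eq_Icc hm, sum_insert (by simp)]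
    simp
  have h2 : ∀ j ∈ Icc 2 m, (0 : ℝ) ≤ if j ∣ m then ((m / j : ℕ) : ℝ) * ap (m / j) ^ j else 0 := by
    intro j _
    split_ifs
    · have := pow_nonneg (ap_nonneg (m / j)) j
      positivity
    · exact le_rfl
  refine ⟨by rw [h1]; linarith [sum_nonneg h2], ?_⟩
  rw [h1]
  have h3 : ∀ j ∈ Icc 2 m, (if j ∣ m then ((m / j : ℕ) : ℝ) * ap (m / j) ^ j else 0) ≤
      (if j = 2 then 2 / (m : ℝ) else 0) + 9 / (m : ℝ) ^ 2 := by
    intro j hj
    rw [mem_Icc] at hj
    split_ifs with h4 h5 h5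
    · subst h5
      obtain ⟨k, rfl⟩ := h4
      rw [Nat.mul_div_cancel_left _ (by norm_num)]
      have hk : 1 ≤ k := by omega
      have hk' : (1 : ℝ) ≤ k := by exact_mod_cast hk
      have h6 : (k : ℝ) * ap k ^ 2 ≤ 2 / ((2 * k : ℕ) : ℝ) := by
        have h7 : (k : ℝ) * ap k ^ 2 = (k * ap k) * ap k := by ring
        rw [h7]
        refine (mul_le_of_le_one_left (ap_nonneg k) (k_ap k)).trans ((ap_succ k).trans ?_)
        push_cast
        rw [inv_eq_one_div, div_le_div_iff₀ (by positivity) (by positivity)]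
        linarith
      have h8 : (0 : ℝ) ≤ 9 / ((2 * k : ℕ) : ℝ) ^ 2 := by positivity
      linarith
    · obtain ⟨k, rfl⟩ := h4
      rw [Nat.mul_div_cancel_left _ (by omega), mul_comm j k, zero_add]
      refine term_le k j ?_ (by omega)
      by_contra hc
      have : k = 0 := by omega
      subst this
      omega
    · positivity
    · positivity
  have h4 := sum_le_sum h3
  rw [sum_add_distrib, sum_const, Nat.card_Icc, nsmul_eq_mul] at h4
  have h5 : ∑ j ∈ Icc 2 m, (if j = 2 then 2 / (m : ℝ) else 0) ≤ 2 / m := by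
    rw [sum_ite_eq']
    split_ifs
    · exact le_rfl
    · positivity
  have h6 : ((m + 1 - 2 : ℕ) : ℝ) * (9 / (m : ℝ) ^ 2) ≤ 9 / m := by
    have h7 : ((m + 1 - 2 : ℕ) : ℝ) ≤ m := by exact_mod_cast (by omega : m + 1 - 2 ≤ m)
    refine (mul_le_mul_of_nonneg_right h7 (by positivity)).trans (le_of_eq ?_)
    field_simp
  have h7 : (11 : ℝ) / m = 2 / m + 9 / m := by ring
  rw [h7]
  linarith

theorem b_le (m : ℕ) : b m ≤ 12 := by
  rcases Nat.eq_zero_or_pos m with rfl | hm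
  · unfold b
    simp
  · have h1 := (b_split m hm).2
    have h2 := k_ap m
    have hm' : (1 : ℝ) ≤ m := by exact_mod_cast hm
    have h3 : (11 : ℝ) / m ≤ 11 := div_le_self (by norm_num) hm'
    linarith

theorem b_tendsto : Tendsto (fun m : ℕ => b m * Real.log m) atTop (𝓝 1) := by
  have h5 : Tendsto (fun x : ℝ => Real.log x / x) atTop (nhds 0) :=
    Real.isLittleO_log_id_atTop.tendsto_div_nhds_zero
  have h6 := pnt2.add ((h5.comp tendsto_natCast_atTop_atTop).const_mul 11)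
  rw [mul_zero, add_zero] at h6
  refine tendsto_of_tendsto_of_tendsto_of_le_of_le' pnt2 h6 ?_ ?_
  · filter_upwards [eventually_ge_atTop 1] with m hm
    exact mul_le_mul_of_nonneg_right (b_split m hm).1 (Real.log_natCast_nonneg m)
  · filter_upwards [eventually_ge_atTop 1] with m hm
    refine (mul_le_mul_of_nonneg_right (b_split m hm).2 (Real.log_natCast_nonneg m)).trans
      (le_of_eq ?_)
    simp only [Function.comp_apply]
    ring

theorem conv (n : ℕ) : (n : ℝ) * W ap n n = ∑ j ∈ range n, b (n - j) * W ap j j := by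
  rw [rec2, sum_comm]
  have h1 : ∀ j ∈ Icc 1 n, ∑ k ∈ Icc 1 n,
      (if k * j ≤ n then (k : ℝ) * ap k ^ j * W ap n (n - k * j) else 0) =
      ∑ m ∈ Icc 1 n, if j ∣ m then ((m / j : ℕ) : ℝ) * ap (m / j) ^ j * W ap (n - m) (n - m) else 0 := by
    intro j hj
    rw [mem_Icc] at hj
    rw [← sum_filter, ← sum_filter]
    refine sum_bij' (fun k _ => k * j) (fun m _ => m / j) ?_ ?_ ?_ ?_ ?_
    · intro k hk
      rw [mem_filter, mem_Icc] at hk ⊢
      refine ⟨⟨Nat.mul_pos (by omega) (by omega), hk.2⟩, Dvd.intro_left k rfl⟩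
    · intro m hm
      rw [mem_filter, mem_Icc] at hm ⊢
      rw [Nat.div_mul_cancel hm.2]
      exact ⟨⟨Nat.div_pos (Nat.le_of_dvd (by omega) hm.2) (by omega),
        (Nat.div_le_self m j).trans hm.1.2⟩, hm.1.2⟩
    · intro k _
      exact Nat.mul_div_cancel k (by omega)
    · intro m hm
      rw [mem_filter] at hm
      exact Nat.div_mul_cancel hm.2
    · intro k hk
      rw [mem_filter, mem_Icc] at hk
      rw [Nat.mul_div_cancel k (by omega), W_stable ap le_rfl (Nat.sub_le n (k * j))]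
  rw [sum_congr rfl h1, sum_comm]
  have h2 : ∀ m ∈ Icc 1 n, (∑ j ∈ Icc 1 n, if j ∣ m then
      ((m / j : ℕ) : ℝ) * ap (m / j) ^ j * W ap (n - m) (n - m) else 0) = b m * W ap (n - m) (n - m) := by
    intro m hm
    rw [mem_Icc] at hm
    unfold b
    rw [sum_mul]
    symm
    have h3 : ∀ j, (if j ∣ m then ((m / j : ℕ) : ℝ) * ap (m / j) ^ j else 0) * W ap (n - m) (n - m) =
        if j ∣ m then ((m / j : ℕ) : ℝ) * ap (m / j) ^ j * W ap (n - m) (n - m) else 0 := by
      intro j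
      split_ifs <;> simp
    simp only [h3]
    refine sum_subset (Icc_subset_Icc_right hm.2) ?_
    intro j hj hj'
    rw [mem_Icc] at hj hj'
    rw [if_neg]
    intro h
    have := Nat.le_of_dvd (by omega) h
    omega
  rw [sum_congr rfl h2]
  refine sum_bij' (fun m _ => n - m) (fun j _ => n - j) ?_ ?_ ?_ ?_ ?_
  · intro m hm
    rw [mem_Icc] at hm
    rw [mem_range]
    omega
  · intro j hj
    rw [mem_range] at hj
    rw [mem_Icc]
    omega
  · intro m hm
    rw [mem_Icc] at hm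
    omega
  · intro j hj
    rw [mem_range] at hj
    omega
  · intro m hm
    rw [mem_Icc] at hm
    rw [Nat.sub_sub_self hm.2]

theorem main : Tendsto (fun n : ℕ => (n : ℝ) * W ap n n) atTop
    (𝓝 (Real.exp Real.eulerMascheroniConstant)) :=
  diff (fun n => W_nonneg ap_nonneg n n) b_nonneg b_le b_tendsto conv C_tendsto

end Pool.Agent.Q45.SN
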