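import Pool.Agent.Q45.SN.Cum
import Pool.Agent.Q45.SN.Diff
import Pool.Agent.H305R2.MertensE
import Pool.Agent.Helper923.PNT

/-! The weights attached to the primes. -/

set_option autoImplicit false

open Finset Filter Topology

namespace Pool.Agent.Q45.SN

/-- the `k`-th prime, `pr 1 = 2` -/
noncomputable def pr (k : ℕ) : ℕ := Nat.nth Nat.Prime (k - 1)

/-- its reciprocal -/
noncomputable def ap (k : ℕ) : ℝ := ((pr k : ℕ) : ℝ)⁻¹

theorem pr_prime (k : ℕ) : (pr k).Prime := Nat.prime_nth_prime _

theorem pr_ge (k : ℕ) : k + 1 ≤ pr k := by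
  have := Nat.add_two_le_nth_prime (k - 1)
  unfold pr
  omega

theorem ap_nonneg (k : ℕ) : 0 ≤ ap k := by unfold ap; positivity

theorem ap_pos (k : ℕ) : 0 < ap k := by
  unfold ap
  have := (pr_prime k).pos
  positivity

theorem ap_half (k : ℕ) : ap k ≤ 1 / 2 := by
  unfold ap
  rw [one_div]
  have : (2 : ℝ) ≤ pr k := by exact_mod_cast (pr_prime k).two_le
  gcongr

theorem ap_succ (k : ℕ) : ap k ≤ ((k : ℝ) + 1)⁻¹ := by
  unfold ap
  have : (k : ℝ) + 1 ≤ pr k := by exact_mod_cast pr_ge k
  gcongr

theorem k_ap (k : ℕ) : (k : ℝ) * ap k ≤ 1 := by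
  have h := ap_succ k
  have h1 : (0 : ℝ) ≤ k := Nat.cast_nonneg k
  calc (k : ℝ) * ap k ≤ k * ((k : ℝ) + 1)⁻¹ := mul_le_mul_of_nonneg_left h h1
    _ ≤ 1 := by
      rw [← div_eq_mul_inv, div_le_one (by positivity)]
      linarith

theorem pr_tendsto : Tendsto (fun k : ℕ => (pr k : ℝ)) atTop atTop := by
  refine tendsto_atTop_mono (fun k => ?_) tendsto_natCast_atTop_atTop
  have : (k : ℝ) + 1 ≤ pr k := by exact_mod_cast pr_ge k
  linarith

theorem pnt1 : Tendsto (fun k : ℕ => (k : ℝ) * ap k * Real.log (pr k)) atTop (𝓝 1) := by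
  have h1 := Pool.Agent.Helper923.PNT.pi_tendsto.comp pr_tendsto
  refine h1.congr' ?_
  filter_upwards [eventually_ge_atTop 1] with k hk
  simp only [Function.comp_apply, Nat.floor_natCast]
  have h3 : Nat.primeCounting (pr k) = k := by
    unfold pr Nat.primeCounting Nat.primeCounting'
    rw [Nat.count_succ, Nat.count_nth_of_infinite Nat.infinite_setOfPred_prime,
      if_pos (Nat.prime_nth_prime _)]
    omega
  rw [h3]
  unfold ap
  ring

theorem log_ratio : Tendsto (fun k : ℕ => Real.log k / Real.log (pr k)) atTop (𝓝 1) := by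
  have h3 : Tendsto (fun k : ℕ => Real.log ((k : ℝ) * ap k * Real.log (pr k))) atTop (𝓝 0) := by
    have := (Real.continuousAt_log one_ne_zero).tendsto.comp pnt1
    rw [Real.log_one] at this
    exact this
  have hL : Tendsto (fun k : ℕ => Real.log (pr k)) atTop atTop :=
    Real.tendsto_log_atTop.comp pr_tendsto
  have h4 : Tendsto (fun k : ℕ => Real.log (Real.log (pr k)) / Real.log (pr k)) atTop (𝓝 0) := by
    have h5 : Tendsto (fun x : ℝ => Real.log x / x) atTop (nhds 0) :=
      Real.isLittleO_log_id_atTop.tendsto_div_nhds_zero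
    exact h5.comp hL
  have h5 : Tendsto (fun k : ℕ => Real.log ((k : ℝ) * ap k * Real.log (pr k)) /
      Real.log (pr k)) atTop (𝓝 0) := h3.div_atTop hL
  have h6 := (h5.sub h4).add_const 1
  rw [sub_zero, zero_add] at h6
  refine h6.congr' ?_
  filter_upwards [hL.eventually_ge_atTop 1, eventually_ge_atTop 1] with k hj hk
  have hP : (0 : ℝ) < pr k := by exact_mod_cast (pr_prime k).pos
  have hj0 : (0 : ℝ) < (k : ℝ) := by exact_mod_cast hk
  have hl : 0 < Real.log (pr k) := by linarith
  rw [Real.log_mul (mul_pos hj0 (ap_pos k)).ne' hl.ne', Real.log_mul hj0.ne' (ap_pos k).ne']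
  unfold ap
  rw [Real.log_inv]
  field_simp
  ring

theorem pnt2 : Tendsto (fun k : ℕ => (k : ℝ) * ap k * Real.log k) atTop (𝓝 1) := by
  have h := pnt1.mul log_ratio
  rw [one_mul] at h
  refine h.congr' ?_
  have hL : Tendsto (fun k : ℕ => Real.log (pr k)) atTop atTop :=
    Real.tendsto_log_atTop.comp pr_tendsto
  filter_upwards [hL.eventually_ge_atTop 1] with k hj
  have hl : Real.log (pr k) ≠ 0 := by positivity
  field_simp

theorem G_eq (y : ℕ) (hy : 1 ≤ y) : G ap y =
    ∏ p ∈ (Icc 1 (pr y)).filter Nat.Prime, (1 - (p : ℝ)⁻¹)⁻¹ := by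
  unfold G
  refine prod_bij' (fun k _ => pr k) (fun p _ => Nat.primeCounting p) ?_ ?_ ?_ ?_ ?_
  · intro k hk
    rw [mem_Icc] at hk
    rw [mem_filter, mem_Icc]
    refine ⟨⟨(pr_prime k).pos, ?_⟩, pr_prime k⟩
    unfold pr
    exact (Nat.nth_monotone Nat.infinite_setOfPred_prime) (by omega)
  · intro p hp
    rw [mem_filter, mem_Icc] at hp
    rw [mem_Icc]
    constructor
    · have := Nat.monotone_primeCounting hp.2.two_le
      have h2 : Nat.primeCounting 2 = 1 := by decide
      omega
    · have := Nat.monotone_primeCounting hp.1.2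
      have h3 : Nat.primeCounting (pr y) = y := by
        unfold pr Nat.primeCounting Nat.primeCounting'
        rw [Nat.count_succ, Nat.count_nth_of_infinite Nat.infinite_setOfPred_prime,
          if_pos (Nat.prime_nth_prime _)]
        omega
      omega
  · intro k hk
    rw [mem_Icc] at hk
    unfold pr Nat.primeCounting Nat.primeCounting'
    rw [Nat.count_succ, Nat.count_nth_of_infinite Nat.infinite_setOfPred_prime,
      if_pos (Nat.prime_nth_prime _)]
    omega
  · intro p hp
    rw [mem_filter, mem_Icc] at hp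
    unfold pr Nat.primeCounting Nat.primeCounting'
    rw [Nat.count_succ, if_pos hp.2, Nat.add_sub_cancel, Nat.nth_count hp.2]
  · intro k _
    rfl

theorem G_tendsto : Tendsto (fun y : ℕ => G ap y / Real.log y) atTop
    (𝓝 (Real.exp Real.eulerMascheroniConstant)) := by
  have h0 : Tendsto pr atTop atTop := by
    refine tendsto_atTop_mono (fun k => ?_) tendsto_id
    have := pr_ge k
    show k ≤ pr k
    omega
  have h1 := Pool.Agent.H305R2.mertens_three.comp h0
  have h2 := h1.div log_ratio one_ne_zero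
  rw [div_one] at h2
  refine h2.congr' ?_
  filter_upwards [eventually_ge_atTop 2] with y hy
  show (∏ p ∈ (Icc 1 (pr y)).filter Nat.Prime, (1 - (p : ℝ)⁻¹)⁻¹) / Real.log (pr y) /
    (Real.log y / Real.log (pr y)) = G ap y / Real.log y
  rw [← G_eq y (by omega)]
  have h3 : 0 < Real.log y := Real.log_pos (by exact_mod_cast (by omega : 1 < y))
  have h4 : 0 < Real.log (pr y) := Real.log_pos (by
    have := (pr_prime y).two_le
    exact_mod_cast (by omega : 1 < pr y))
  field_simp

theorem cube_ev : ∀ᶠ n : ℕ in atTop, (Real.log n) ^ 3 ≤ n := by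
  have h1 := (Real.isLittleO_pow_log_id_atTop (n := 3)).bound (show (0 : ℝ) < 1 from one_pos)
  have h2 := tendsto_natCast_atTop_atTop.eventually h1
  filter_upwards [h2, log_nat_tendsto.eventually_ge_atTop 0] with n h3 h4
  rw [one_mul, Real.norm_of_nonneg (by positivity)] at h3
  simpa using h3

theorem M_ge : ∀ᶠ n : ℕ in atTop, (n : ℝ) / (2 * (Real.log n) ^ 2) ≤ M n ∧ Real.log n - 1 ≤ M n := by
  filter_upwards [cube_ev, log_nat_tendsto.eventually_ge_atTop 2] with n h1 h2
  have h3 : (n : ℝ) / (Real.log n) ^ 2 < M n + 1 := Nat.lt_floor_add_one _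
  have h4 : Real.log n ≤ (n : ℝ) / (Real.log n) ^ 2 := by
    rw [le_div_iff₀ (by positivity)]
    refine le_trans (le_of_eq ?_) h1
    ring
  refine ⟨?_, by linarith⟩
  have h5 : (n : ℝ) / (2 * (Real.log n) ^ 2) = (n : ℝ) / (Real.log n) ^ 2 / 2 := by
    rw [div_div, mul_comm]
  rw [h5]
  linarith

theorem M_tendsto : Tendsto M atTop atTop := by
  have h : Tendsto (fun n : ℕ => (M n : ℝ)) atTop atTop := by
    refine tendsto_atTop_mono' _ (M_ge.mono fun n hn => hn.2) ?_
    exact tendsto_atTop_add_const_right _ _ log_nat_tendsto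
  exact tendsto_natCast_atTop_iff.mp h

theorem M_log : Tendsto (fun n : ℕ => Real.log (M n) / Real.log n) atTop (𝓝 1) := by
  have h5 : Tendsto (fun x : ℝ => Real.log x / x) atTop (nhds 0) :=
    Real.isLittleO_log_id_atTop.tendsto_div_nhds_zero
  have h6 := (h5.comp log_nat_tendsto).const_mul 2
  have h4 : Tendsto (fun n : ℕ => Real.log 2 / Real.log n) atTop (𝓝 0) :=
    tendsto_const_nhds.div_atTop log_nat_tendsto
  have h7 := (h6.add h4).const_sub 1
  rw [mul_zero, add_zero, sub_zero] at h7
  refine tendsto_of_tendsto_of_tendsto_of_le_of_le' h7 tendsto_const_nhds ?_ ?_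
  · filter_upwards [M_ge, log_nat_tendsto.eventually_ge_atTop 2, eventually_ge_atTop 1] with n h1 h2 h3
    have hn : (0 : ℝ) < n := by exact_mod_cast h3
    have hl : 0 < Real.log n := by linarith
    have h8 := Real.log_le_log (by positivity) h1.1
    rw [Real.log_div hn.ne' (by positivity), Real.log_mul (by norm_num) (by positivity),
      Real.log_pow] at h8
    rw [le_div_iff₀ hl]
    simp only [Function.comp_apply]
    have h9 : (1 - (2 * (Real.log (Real.log n) / Real.log n) + Real.log 2 / Real.log n)) *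
        Real.log n = Real.log n - (Real.log 2 + 2 * Real.log (Real.log n)) := by
      field_simp
      ring
    rw [h9]
    push_cast at h8
    exact h8
  · filter_upwards [log_nat_tendsto.eventually_ge_atTop 2, M_ge] with n h2 h3
    have hl : 0 < Real.log n := by linarith
    rw [div_le_one hl]
    have h4 : (0 : ℝ) < M n := by linarith [h3.2]
    refine Real.log_le_log h4 ?_
    refine (Nat.floor_le (by positivity)).trans ?_
    refine div_le_self (Nat.cast_nonneg n) ?_
    nlinarith

theorem C_tendsto : Tendsto (fun n : ℕ => C ap n / Real.log n) atTop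
    (𝓝 (Real.exp Real.eulerMascheroniConstant)) := by
  have hlow : Tendsto (fun n : ℕ => G ap (M n) / Real.log (M n) * (Real.log (M n) / Real.log n) *
      (1 - 2 * (1 / (Real.log n) ^ 2))) atTop (𝓝 (Real.exp Real.eulerMascheroniConstant)) := by
    have h1 := (G_tendsto.comp M_tendsto).mul M_log
    have h2 : Tendsto (fun n : ℕ => 1 / (Real.log n) ^ 2) atTop (𝓝 0) :=
      tendsto_const_nhds.div_atTop ((tendsto_pow_atTop two_ne_zero).comp log_nat_tendsto)
    have h3 := h1.mul ((h2.const_mul 2).const_sub 1)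
    rw [mul_zero, sub_zero, mul_one, mul_one] at h3
    exact h3
  refine tendsto_of_tendsto_of_tendsto_of_le_of_le' hlow G_tendsto ?_ ?_
  · filter_upwards [log_nat_tendsto.eventually_ge_atTop 2, M_ge, eventually_ge_atTop 1] with n h2 h3 h4
    have hl : 0 < Real.log n := by linarith
    have hn : (0 : ℝ) < n := by exact_mod_cast h4
    have h5 : 2 ≤ M n ∨ M n < 2 := le_or_gt 2 (M n)
    have h6 : 0 ≤ G ap (M n) := (G_pos ap_nonneg ap_half _).le
    have h7 := T_lower ap_nonneg ap_half k_ap (M n) n h4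
    have h8 := T_le_C ap_nonneg (M n) n
    have h9 : G ap (M n) * (1 - 2 * (1 / (Real.log n) ^ 2)) ≤ C ap n := by
      refine le_trans (mul_le_mul_of_nonneg_left ?_ h6) (h7.trans h8)
      have h10 : (M n : ℝ) / n ≤ 1 / (Real.log n) ^ 2 := by
        rw [div_le_iff₀ hn]
        refine (Nat.floor_le (by positivity)).trans (le_of_eq ?_)
        ring
      have h11 : 2 * (M n : ℝ) / n = 2 * (M n / n) := by ring
      rw [h11]
      linarith
    rcases eq_or_ne (Real.log (M n)) 0 with h0 | h0
    · rw [h0]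
      simp only [div_zero, zero_mul]
      exact div_nonneg (sum_nonneg fun _ _ => W_nonneg ap_nonneg _ _) hl.le
    · rw [le_div_iff₀ hl]
      refine le_trans (le_of_eq ?_) h9
      field_simp
  · filter_upwards [log_nat_tendsto.eventually_ge_atTop 2] with n h2
    refine div_le_div_of_nonneg_right ?_ (by linarith)
    rw [C_eq]
    exact T_le ap_nonneg ap_half n n

end Pool.Agent.Q45.SN
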